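import Pool.Agent.Q105.SqE.Cmp

/-!
# MP_406d9d_co: the square energies of non-bipartite unicyclic graphs

Among the non-bipartite unicyclic graphs with `n` vertices the positive square energy `s⁺` is
minimal for `H_n^5` (`n ≥ 7`), and the negative square energy `s⁻` for `H_n^3` (`n ≥ 5`).

Outline. Since `s⁺ + s⁻ = 2 n` it is enough to compare `∑ λ |λ|`, and this follows if the sums
`θ(t) = ∑ arctan (λ / t)` are comparable for all `t > 0`, because `t arctan (λ / t)` has an
antiderivative which vanishes at `0` and is `λ t - (π / 4) λ |λ| + o(1)` at infinity. Elimination of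
the trees of a unicyclic graph with the odd cycle `C_k` shows that `i t - A` has the determinant
`i^n c (μ ± 2 i)` with `c > 0`, where the sign depends on `k` modulo `4` and `μ` is the trace of the
product of the matrices `(w_j, 1; 1, 0)`, with weights `w_j ≥ t` on the cycle. So
`θ(t) = ± arctan (2 / μ)`. If there is a tree, then some weight is at least
`t + t / (t² + n - k - 1)`, with equality for `H_n^k`.
-/

namespace Pool.Agent.Results.MP_406d9d_co.SquareEnergies

open Finset

open scoped Classical in
/-- the adjacency matrix is symmetric -/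
theorem herm {n : ℕ} (G : SimpleGraph (Fin n)) : (G.adjMatrix ℝ).IsHermitian :=
  Pool.Agent.Q105.SqE.adj_herm G

/-- the eigenvalues of the adjacency matrix, with multiplicities -/
noncomputable def eig {n : ℕ} (G : SimpleGraph (Fin n)) : Fin n → ℝ := (herm G).eigenvalues

/-- the positive square energy: the sum of the squares of the positive eigenvalues -/
noncomputable def sPlus {n : ℕ} (G : SimpleGraph (Fin n)) : ℝ :=
  ∑ i, if 0 < eig G i then eig G i ^ 2 else 0

/-- the negative square energy: the sum of the squares of the negative eigenvalues -/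
noncomputable def sMinus {n : ℕ} (G : SimpleGraph (Fin n)) : ℝ :=
  ∑ i, if eig G i < 0 then eig G i ^ 2 else 0

/-- `H_n^k`: the star with the centre `k` and the leaves `0` and `k + 1, ..., n - 1`, and the cycle
`0, 1, ..., k - 1`, which has the vertex `0` in common with the star (for `3 ≤ k < n`) -/
def H (n k : ℕ) : SimpleGraph (Fin n) := SimpleGraph.fromRel fun i j =>
  (i.val + 1 = j.val ∧ j.val < k) ∨ (i.val = 0 ∧ j.val + 1 = k) ∨ (i.val = 0 ∧ j.val = k) ∨
    (i.val = k ∧ k < j.val)

theorem sPlus_eq {n : ℕ} (G : SimpleGraph (Fin n)) :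
    sPlus G = (∑ i, eig G i ^ 2 + ∑ i, eig G i * |eig G i|) / 2 := by
  unfold sPlus
  rw [← Finset.sum_add_distrib, Finset.sum_div]
  refine Finset.sum_congr rfl fun i _ => ?_
  split_ifs with h
  · rw [abs_of_pos h]; ring
  · rw [abs_of_nonpos (not_lt.1 h)]; ring

theorem sMinus_eq {n : ℕ} (G : SimpleGraph (Fin n)) :
    sMinus G = (∑ i, eig G i ^ 2 - ∑ i, eig G i * |eig G i|) / 2 := by
  unfold sMinus
  rw [← Finset.sum_sub_distrib, Finset.sum_div]
  refine Finset.sum_congr rfl fun i _ => ?_
  split_ifs with h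
  · rw [abs_of_neg h]; ring
  · rw [abs_of_nonneg (not_lt.1 h)]; ring

/-- **Square energies of non-bipartite unicyclic graphs.** Let `G` be a connected non-bipartite graph
with `n` vertices and `n` edges. Then `s⁺(G) ≥ s⁺(H_n^5)` if `n ≥ 7`, and `s⁻(G) ≥ s⁻(H_n^3)` if
`n ≥ 5`. -/
theorem result (n : ℕ) (G : SimpleGraph (Fin n)) (hconn : G.Connected) (hedges : G.edgeSet.ncard = n)
    (hbip : ¬ G.IsBipartite) :
    (7 ≤ n → sPlus (H n 5) ≤ sPlus G) ∧ (5 ≤ n → sMinus (H n 3) ≤ sMinus G) := by
  classical
  have hsq : ∑ i, eig G i ^ 2 = 2 * n := by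
    have := Pool.Agent.Q105.SqE.sum_sq_eigs G
    rw [hedges] at this
    exact this
  constructor
  · intro hn
    have h1 : ∑ i, eig (H n 5) i ^ 2 = 2 * n :=
      Pool.Agent.Q105.SqE.sum_sq_H (n := n) (k := 5) (by norm_num) (by omega)
    have h2 : ∑ i, eig (H n 5) i * |eig (H n 5) i| ≤ ∑ i, eig G i * |eig G i| :=
      Pool.Agent.Q105.SqE.lower hn G hconn hedges hbip
    rw [sPlus_eq, sPlus_eq, h1, hsq]
    linarith
  · intro hn
    have h1 : ∑ i, eig (H n 3) i ^ 2 = 2 * n :=
      Pool.Agent.Q105.SqE.sum_sq_H (n := n) (k := 3) (by norm_num) (by omega)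
    have h2 : ∑ i, eig G i * |eig G i| ≤ ∑ i, eig (H n 3) i * |eig (H n 3) i| :=
      Pool.Agent.Q105.SqE.upper hn G hconn hedges hbip
    rw [sMinus_eq, sMinus_eq, h1, hsq]
    linarith

end Pool.Agent.Results.MP_406d9d_co.SquareEnergies
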